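import Pool.Agent.Y716.FF.Final
import Pool.Agent.Q59.QT.Tower

/-!
# The Hasse principle for 100% of the cubic hypersurfaces over `F_q(t)`, over all finite extensions
of `F_q(t)` which are, locally, towers of quadratic extensions
-/

set_option autoImplicit false

namespace Pool.Agent.Results.MP_d4938b_nt.CubicsOverQuadraticTowers

open Polynomial IsDedekindDomain Filter Topology

/-- The cubic forms in `n + 1` variables over `F[t]` all of whose coefficients have degree less
than `A`. -/
def Forms (F : Type) [Field F] (n A : ℕ) : Set (MvPolynomial (Fin (n + 1)) F[X]) :=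
  {f | f.IsHomogeneous 3 ∧ ∀ m, (f.coeff m).degree < A}

/-- The embedding of `F[t]` in the completion `F((u))`, `u = 1 / t`, of `F(t)` at infinity:
`t` goes to the inverse of `u`. -/
noncomputable def toInfty (F : Type) [Field F] : F[X] →+* LaurentSeries F :=
  (Polynomial.aeval (HahnSeries.single (-1 : ℤ) (1 : F)) : F[X] →ₐ[F] LaurentSeries F).toRingHom

/-- The hypersurface `f = 0` in `ℙⁿ` has a point over the field `L`, where `φ` is the map from
`F[t]` to `L`. -/
def HasPoint {F : Type} [Field F] {n : ℕ} (f : MvPolynomial (Fin (n + 1)) F[X]) {L : Type}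
    [Field L] (φ : F[X] →+* L) : Prop :=
  ∃ x : Fin (n + 1) → L, x ≠ 0 ∧ MvPolynomial.eval₂ φ x f = 0

/-- The hypersurface `f = 0` has a point over `F(t)`. -/
def HasRationalPoint {F : Type} [Field F] {n : ℕ} (f : MvPolynomial (Fin (n + 1)) F[X]) : Prop :=
  HasPoint f (algebraMap F[X] (RatFunc F))

/-- `M` is obtained from `K` by finitely many steps `E ⊂ E(θ)`, where `θ` is a zero of a monic
quadratic polynomial over `E`. -/
def IsQuadraticTower (K M : Type) [Field K] [Field M] [Algebra K M] : Prop :=
  ∃ (r : ℕ) (E : ℕ → Subfield M), E 0 = (algebraMap K M).fieldRange ∧ E r = ⊤ ∧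
    ∀ i < r, ∃ θ : M, (∃ b ∈ E i, ∃ c ∈ E i, θ ^ 2 = b * θ + c) ∧
      E (i + 1) = E i ⊔ Subfield.closure {θ}

/-- Let `K'` be the completion of `F(t)` at a place `v`, `φ` the map from `F[t]` to `K'`, and let `L`
be a finite extension of `F(t)`. The field `M`, with the embedding `σ` of `L`, is the completion of
`L` at a place above `v`: it is a finite extension of `K'`, generated by the image of `L`. -/
structure IsCompletion {F K' L M : Type} [Field F] [Field K'] [Field L] [Algebra (RatFunc F) L]
    [Field M] [Algebra K' M] (φ : F[X] →+* K') (σ : L →+* M) : Prop where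
  finite : FiniteDimensional K' M
  comp : ∀ a : F[X], σ (algebraMap (RatFunc F) L (algebraMap F[X] (RatFunc F) a)) =
    algebraMap K' M (φ a)
  top : Algebra.adjoin K' (Set.range σ) = ⊤

/-- The hypersurface `f = 0` has points over all the completions of `L` above the completion `K'` of
`F(t)`. -/
def PointsAbove {F K' : Type} [Field F] [Field K'] (φ : F[X] →+* K') {n : ℕ}
    (f : MvPolynomial (Fin (n + 1)) F[X]) (L : Type) [Field L] [Algebra (RatFunc F) L] : Prop :=
  ∀ (M : Type) [Field M] [Algebra K' M] (σ : L →+* M), IsCompletion φ σ →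
    HasPoint f ((algebraMap K' M).comp φ)

/-- Some completion of `L` above the completion `K'` of `F(t)` is a tower of quadratic extensions of
`K'`. -/
def QuadraticAbove {F K' : Type} [Field F] [Field K'] (φ : F[X] →+* K') (L : Type) [Field L]
    [Algebra (RatFunc F) L] : Prop :=
  ∃ (M : Type) (_ : Field M) (_ : Algebra K' M) (σ : L →+* M), IsCompletion φ σ ∧
    IsQuadraticTower K' M

/-- The hypersurface `f = 0` has points over all the completions of `L`: the places of `F(t)` are the
maximal ideals `v` of `F[t]` and infinity. -/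
def LocallySoluble {F : Type} [Field F] {n : ℕ} (f : MvPolynomial (Fin (n + 1)) F[X]) (L : Type)
    [Field L] [Algebra (RatFunc F) L] : Prop :=
  (∀ v : HeightOneSpectrum F[X],
    PointsAbove (algebraMap F[X] (v.adicCompletion (RatFunc F))) f L) ∧
  PointsAbove (toInfty F) f L

/-- Above every place `v` of `F(t)` there is a completion of `L` which is a tower of quadratic
extensions of the completion of `F(t)` at `v`. -/
def LocallyQuadratic (F L : Type) [Field F] [Field L] [Algebra (RatFunc F) L] : Prop :=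
  (∀ v : HeightOneSpectrum F[X],
    QuadraticAbove (algebraMap F[X] (v.adicCompletion (RatFunc F))) L) ∧
  QuadraticAbove (toInfty F) L

/-- The hypersurface `f = 0` has points over all the completions of some finite extension of `F(t)`
which is locally a tower of quadratic extensions. -/
def SomewhereLocallySoluble {F : Type} [Field F] {n : ℕ}
    (f : MvPolynomial (Fin (n + 1)) F[X]) : Prop :=
  ∃ (L : Type) (_ : Field L) (_ : Algebra (RatFunc F) L), FiniteDimensional (RatFunc F) L ∧
    LocallyQuadratic F L ∧ LocallySoluble f L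

section

variable {F : Type} [Field F] {n : ℕ} {f : MvPolynomial (Fin (n + 1)) F[X]}

lemma descent_above {K' L : Type} [Field K'] [Field L] [Algebra (RatFunc F) L] {φ : F[X] →+* K'}
    (hf : f.IsHomogeneous 3) (hQ : QuadraticAbove φ L) (hP : PointsAbove φ f L) :
    ∃ x : Fin (n + 1) → K', x ≠ 0 ∧ MvPolynomial.eval₂ φ x f = 0 := by
  obtain ⟨M, _, _, σ, hσ, hM⟩ := hQ
  obtain ⟨x, hx, h0⟩ := hP M σ hσ
  have h1 : MvPolynomial.aeval x (MvPolynomial.map φ f) = 0 := by
    rw [MvPolynomial.aeval_def, MvPolynomial.eval₂_map]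
    exact h0
  obtain ⟨w, hw, hw0⟩ := Pool.Agent.Q59.QT.descent hM (hf.map φ) x hx h1
  refine ⟨w, hw, ?_⟩
  rw [MvPolynomial.aeval_def, MvPolynomial.eval₂_map] at hw0
  exact hw0

lemma els_of_somewhere (hf : f.IsHomogeneous 3) (h : SomewhereLocallySoluble f) :
    Pool.Agent.Y716.FF.ELS f := by
  obtain ⟨L, _, _, -, ⟨hQ, hQ'⟩, ⟨hP, hP'⟩⟩ := h
  exact ⟨fun v => descent_above hf (hQ v) (hP v), descent_above hf hQ' hP'⟩

lemma point_above {K' : Type} [Field K'] (φ : F[X] →+* K') (h : HasRationalPoint f) :
    PointsAbove φ f (RatFunc F) := by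
  intro M _ _ σ hσ
  obtain ⟨x, hx, h0⟩ := h
  refine ⟨fun i => σ (x i), ?_, ?_⟩
  · intro h1
    apply hx
    funext i
    have := congrFun h1 i
    exact (map_eq_zero_iff σ σ.injective).1 this
  · have h1 : (algebraMap K' M).comp φ = σ.comp (algebraMap F[X] (RatFunc F)) := by
      refine RingHom.ext fun a => ?_
      exact (hσ.comp a).symm
    have h2 := MvPolynomial.eval₂_comp_left σ (algebraMap F[X] (RatFunc F)) x f
    rw [h1]
    have h3 : MvPolynomial.eval₂ (σ.comp (algebraMap F[X] (RatFunc F))) (⇑σ ∘ x) f = 0 := by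
      rw [← h2, h0, map_zero]
    exact h3

lemma quadratic_above {K' L : Type} [Field K'] [Field L] [Algebra (RatFunc F) L]
    [FiniteDimensional (RatFunc F) L] {φ : F[X] →+* K'} (ψ : RatFunc F →+* K')
    (hψ : ∀ a, ψ (algebraMap F[X] (RatFunc F) a) = φ a)
    (hL : IsQuadraticTower (RatFunc F) L) : QuadraticAbove φ L := by
  obtain ⟨M, i1, i2, σ, h1, h2, h3⟩ := Pool.Agent.Q59.QT.exists_compositum (L := L) ψ
  refine ⟨M, i1, i2, σ, ⟨h1, fun a => ?_, h3⟩, ?_⟩
  · rw [h2, hψ]
  · exact Pool.Agent.Q59.QT.IsQuadraticTower.base hL ψ σ h2 h3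

lemma toInfty_injective : Function.Injective (toInfty F) := by
  rw [injective_iff_map_eq_zero]
  intro c hc
  have hc' : Pool.Agent.Y241.toInfty F c = 0 := hc
  rw [Pool.Agent.Y241.toInfty_eq c.natDegree c le_rfl] at hc'
  rcases mul_eq_zero.mp hc' with h1 | h1
  · exact absurd h1 (HahnSeries.single_ne_zero one_ne_zero)
  · unfold Pool.Agent.Y241.toLau at h1
    rw [RingHom.comp_apply] at h1
    have h2 := (map_eq_zero_iff _ HahnSeries.ofPowerSeries_injective).mp h1
    have h3 : ((c.reflect c.natDegree : F[X]) : PowerSeries F) = 0 := h2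
    have h4 : c.reflect c.natDegree = 0 := by
      have := Polynomial.coe_injective F (a₁ := c.reflect c.natDegree) (a₂ := 0)
      apply this
      rw [h3, Polynomial.coe_zero]
    rwa [reflect_eq_zero_iff] at h4

lemma locallyQuadratic_of_tower (L : Type) [Field L] [Algebra (RatFunc F) L]
    [FiniteDimensional (RatFunc F) L] (hL : IsQuadraticTower (RatFunc F) L) :
    LocallyQuadratic F L := by
  refine ⟨fun v => ?_, ?_⟩
  · exact quadratic_above (algebraMap (RatFunc F) (v.adicCompletion (RatFunc F)))
      (fun a => (IsScalarTower.algebraMap_apply F[X] (RatFunc F)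
        (v.adicCompletion (RatFunc F)) a).symm) hL
  · exact quadratic_above (IsFractionRing.lift toInfty_injective)
      (fun a => IsFractionRing.lift_algebraMap toInfty_injective a) hL

lemma tower_self : IsQuadraticTower (RatFunc F) (RatFunc F) :=
  ⟨0, fun _ => ⊤, by
    rw [eq_comm, eq_top_iff]
    intro x _
    exact ⟨x, rfl⟩, rfl, fun i hi => absurd hi (Nat.not_lt_zero i)⟩

lemma somewhere_of_rational (h : HasRationalPoint f) : SomewhereLocallySoluble f :=
  ⟨RatFunc F, inferInstance, inferInstance, inferInstance,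
    locallyQuadratic_of_tower _ tower_self, fun _ => point_above _ h, point_above _ h⟩

end

/-- **The Hasse principle for 100% of the cubic hypersurfaces over `F(t)`, over all the extensions
of `F(t)` which are locally towers of quadratic extensions.** Let `F` be a finite field and `n ≥ 3`.
(1) A positive proportion of the cubic forms in `n + 1` variables over `F[t]` has points over all the
completions of some finite extension of `F(t)` which is locally a tower of quadratic extensions.
(2) 100% of these have points over `F(t)`. (3) For 100% of all the cubic forms `f`, for all the finite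
extensions `L` of `F(t)` which are locally towers of quadratic extensions at once: if `f = 0` has
points over all the completions of `L`, it has a point over `F(t)`. (4) Every tower `L` of quadratic
extensions of `F(t)` has this property. -/
theorem result (F : Type) [Field F] [Finite F] (n : ℕ) (hn : 3 ≤ n) :
    (∃ c : ℝ, 0 < c ∧ ∀ᶠ A : ℕ in atTop, c * ((Forms F n A).ncard : ℝ) ≤
      (({f | f ∈ Forms F n A ∧ SomewhereLocallySoluble f} : Set _).ncard : ℝ)) ∧
    Tendsto (fun A : ℕ =>
      (({f | f ∈ Forms F n A ∧ HasRationalPoint f} : Set _).ncard : ℝ) /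
      (({f | f ∈ Forms F n A ∧ SomewhereLocallySoluble f} : Set _).ncard : ℝ)) atTop (𝓝 1) ∧
    Tendsto (fun A : ℕ =>
      (({f | f ∈ Forms F n A ∧ ∀ (L : Type) [Field L] [Algebra (RatFunc F) L]
        [FiniteDimensional (RatFunc F) L], LocallyQuadratic F L → LocallySoluble f L →
        HasRationalPoint f} : Set _).ncard : ℝ) /
      ((Forms F n A).ncard : ℝ)) atTop (𝓝 1) ∧
    (∀ (L : Type) [Field L] [Algebra (RatFunc F) L] [FiniteDimensional (RatFunc F) L],
      IsQuadraticTower (RatFunc F) L → LocallyQuadratic F L) := by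
  classical
  have h1 := Pool.Agent.Y716.FF.main_tendsto (F := F) (ι := Fin (n + 1)) 1
    (by rw [Fintype.card_fin]; omega) (by rw [Fintype.card_fin]; omega)
  have h2 := Pool.Agent.Y716.FF.main_positive (F := F) (ι := Fin (n + 1)) 1
    (by rw [Fintype.card_fin]; omega) (by rw [Fintype.card_fin]; omega)
  have hfin : ∀ A : ℕ, (Forms F n A).Finite := by
    intro A
    refine (Finset.finite_toSet (Pool.Agent.Y716.FF.forms F (Fin (n + 1)) 3 A)).subset ?_
    rintro f hf
    exact Pool.Agent.Y716.FF.mem_forms.mpr hf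
  -- the sets
  let R : ℕ → Set (MvPolynomial (Fin (n + 1)) F[X]) := fun A =>
    {f | f ∈ Forms F n A ∧ HasRationalPoint f}
  let S : ℕ → Set (MvPolynomial (Fin (n + 1)) F[X]) := fun A =>
    {f | f ∈ Forms F n A ∧ SomewhereLocallySoluble f}
  let D : ℕ → Set (MvPolynomial (Fin (n + 1)) F[X]) := fun A =>
    {f | f ∈ Forms F n A ∧ Pool.Agent.Y716.FF.ELS f}
  have hRS : ∀ A, R A ⊆ S A := fun A f hf => ⟨hf.1, somewhere_of_rational hf.2⟩
  have hSD : ∀ A, S A ⊆ D A := fun A f hf => ⟨hf.1, els_of_somewhere hf.1.1 hf.2⟩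
  have hDfin : ∀ A, (D A).Finite := fun A => (hfin A).subset fun f hf => hf.1
  have hSfin : ∀ A, (S A).Finite := fun A => (hfin A).subset fun f hf => hf.1
  have hRfin : ∀ A, (R A).Finite := fun A => (hfin A).subset fun f hf => hf.1
  have h1' : Tendsto (fun A : ℕ => ((R A).ncard : ℝ) / ((D A).ncard : ℝ)) atTop (𝓝 1) := h1
  have hp : ∃ c : ℝ, 0 < c ∧ ∀ᶠ A : ℕ in atTop, c * ((Forms F n A).ncard : ℝ) ≤
      ((R A).ncard : ℝ) := h2
  have hr : Tendsto (fun A : ℕ => ((R A).ncard : ℝ) / ((S A).ncard : ℝ)) atTop (𝓝 1) := by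
    refine tendsto_of_tendsto_of_tendsto_of_le_of_le h1' tendsto_const_nhds (fun A => ?_)
      (fun A => ?_)
    · have h3 : ((S A).ncard : ℝ) ≤ (D A).ncard :=
        Nat.cast_le.2 (Set.ncard_le_ncard (hSD A) (hDfin A))
      rcases (Nat.cast_nonneg (α := ℝ) (S A).ncard).eq_or_lt with h4 | h4
      · have h5 : ((R A).ncard : ℝ) ≤ 0 := by
          rw [h4]
          exact Nat.cast_le.2 (Set.ncard_le_ncard (hRS A) (hSfin A))
        have h6 : ((R A).ncard : ℝ) = 0 := le_antisymm h5 (Nat.cast_nonneg _)
        show ((R A).ncard : ℝ) / ((D A).ncard : ℝ) ≤ ((R A).ncard : ℝ) / ((S A).ncard : ℝ)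
        rw [h6, zero_div, zero_div]
      · exact div_le_div_of_nonneg_left (Nat.cast_nonneg _) h4 h3
    · exact div_le_one_of_le₀ (Nat.cast_le.2 (Set.ncard_le_ncard (hRS A) (hSfin A)))
        (Nat.cast_nonneg _)
  refine ⟨?_, hr, ?_, fun L _ _ _ hL => locallyQuadratic_of_tower L hL⟩
  · obtain ⟨c, hc, h⟩ := hp
    refine ⟨c, hc, ?_⟩
    filter_upwards [h] with A hA
    exact hA.trans (Nat.cast_le.2 (Set.ncard_le_ncard (hRS A) (hSfin A)))
  · -- the set of the `f` which violate the property
    have hTpos : ∀ A : ℕ, 0 < ((Forms F n A).ncard : ℝ) := by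
      intro A
      have : (0 : MvPolynomial (Fin (n + 1)) F[X]) ∈ Forms F n A :=
        ⟨MvPolynomial.isHomogeneous_zero _ _ _, fun m => by
          rw [MvPolynomial.coeff_zero, degree_zero]
          exact WithBot.bot_lt_coe A⟩
      exact Nat.cast_pos.2 (Set.ncard_pos (hfin A) |>.2 ⟨0, this⟩)
    have hq : Tendsto (fun A : ℕ => ((R A).ncard : ℝ) / ((S A).ncard : ℝ)) atTop (𝓝 1) := hr
    have hlow : Tendsto (fun A : ℕ => 1 - (1 - ((R A).ncard : ℝ) / ((S A).ncard : ℝ))) atTop
        (𝓝 1) := by
      have := (hq.const_sub 1).const_sub 1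
      rwa [sub_self, sub_zero] at this
    refine tendsto_of_tendsto_of_tendsto_of_le_of_le hlow tendsto_const_nhds (fun A => ?_)
      (fun A => ?_)
    · -- the good set contains the complement of `S \ R`
      let G : Set (MvPolynomial (Fin (n + 1)) F[X]) := {f | f ∈ Forms F n A ∧
        ∀ (L : Type) [Field L] [Algebra (RatFunc F) L] [FiniteDimensional (RatFunc F) L],
        LocallyQuadratic F L → LocallySoluble f L → HasRationalPoint f}
      show 1 - (1 - ((R A).ncard : ℝ) / ((S A).ncard : ℝ)) ≤
        (G.ncard : ℝ) / ((Forms F n A).ncard : ℝ)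
      have hsub : Forms F n A ⊆ (S A \ R A) ∪ G := by
        intro f hf
        by_cases h3 : HasRationalPoint f
        · exact Or.inr ⟨hf, fun L _ _ _ _ _ => h3⟩
        · by_cases h4 : SomewhereLocallySoluble f
          · exact Or.inl ⟨⟨hf, h4⟩, fun h5 => h3 h5.2⟩
          · exact Or.inr ⟨hf, fun L _ _ _ h5 h6 => absurd ⟨L, inferInstance, inferInstance,
              inferInstance, h5, h6⟩ h4⟩
      have hGfin : G.Finite := (hfin A).subset fun f hf => hf.1
      have h3 : ((Forms F n A).ncard : ℝ) ≤ ((S A \ R A).ncard : ℝ) + (G.ncard : ℝ) := by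
        have h4 := (Set.ncard_le_ncard hsub (((hSfin A).subset Set.sdiff_subset).union hGfin)).trans
          (Set.ncard_union_le _ _)
        exact_mod_cast h4
      rw [Set.ncard_sdiff (hRS A) (hRfin A),
        Nat.cast_sub (Set.ncard_le_ncard (hRS A) (hSfin A))] at h3
      have hST : ((S A).ncard : ℝ) ≤ ((Forms F n A).ncard : ℝ) :=
        Nat.cast_le.2 (Set.ncard_le_ncard (fun f hf => hf.1) (hfin A))
      have hRS' : ((R A).ncard : ℝ) ≤ (S A).ncard :=
        Nat.cast_le.2 (Set.ncard_le_ncard (hRS A) (hSfin A))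
      rw [le_div_iff₀ (hTpos A)]
      rcases (Nat.cast_nonneg (α := ℝ) (S A).ncard).eq_or_lt with h7 | h7
      · rw [← h7, div_zero, sub_zero, sub_self, zero_mul]
        exact Nat.cast_nonneg _
      · have h8 : (1 - ((R A).ncard : ℝ) / ((S A).ncard : ℝ)) * ((S A).ncard : ℝ) =
            ((S A).ncard : ℝ) - (R A).ncard := by
          field_simp
        have h9 : 0 ≤ 1 - ((R A).ncard : ℝ) / ((S A).ncard : ℝ) := by
          rw [sub_nonneg]
          exact div_le_one_of_le₀ hRS' h7.le
        have h10 : ((S A).ncard : ℝ) - (R A).ncard ≤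
            (1 - ((R A).ncard : ℝ) / ((S A).ncard : ℝ)) * ((Forms F n A).ncard : ℝ) := by
          rw [← h8]
          exact mul_le_mul_of_nonneg_left hST h9
        linarith
    · exact div_le_one_of_le₀ (Nat.cast_le.2 (Set.ncard_le_ncard (fun f hf => hf.1) (hfin A)))
        (Nat.cast_nonneg _)

end Pool.Agent.Results.MP_d4938b_nt.CubicsOverQuadraticTowers
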