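import Pool.Agent.Q59.QT.Exc

/-!
# The Hasse principle for almost all Fano hypersurfaces over `F_q(t)`, over all the finite extensions of
`F_q(t)` with a place of degree one above every place of small degree
-/

set_option autoImplicit false

namespace Pool.Agent.Results.MP_d4938b_nt.FanoOverSplitExtensions

open Polynomial IsDedekindDomain Filter Topology

/-- The forms of degree `d` in `n + 1` variables over `F[t]` all of whose coefficients have degree
less than `A`. -/
def Forms (F : Type) [Field F] (n d A : ℕ) : Set (MvPolynomial (Fin (n + 1)) F[X]) :=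
  {f | f.IsHomogeneous d ∧ ∀ m, (f.coeff m).degree < A}

/-- The embedding of `F[t]` in the completion `F((u))`, `u = 1 / t`, of `F(t)` at infinity:
`t` goes to the inverse of `u`. -/
noncomputable def toInfty (F : Type) [Field F] : F[X] →+* LaurentSeries F :=
  (Polynomial.aeval (HahnSeries.single (-1 : ℤ) (1 : F)) : F[X] →ₐ[F] LaurentSeries F).toRingHom

/-- The hypersurface `f = 0` in `ℙⁿ` has a point over the field `L`, where `φ` is the map from
`F[t]` to `L`. -/
def HasPoint {F : Type} [Field F] {n : ℕ} (f : MvPolynomial (Fin (n + 1)) F[X]) {L : Type}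
    [Field L] (φ : F[X] →+* L) : Prop :=
  ∃ x : Fin (n + 1) → L, x ≠ 0 ∧ MvPolynomial.eval₂ φ x f = 0

/-- The hypersurface `f = 0` has a point over `F(t)`. -/
def HasRationalPoint {F : Type} [Field F] {n : ℕ} (f : MvPolynomial (Fin (n + 1)) F[X]) : Prop :=
  HasPoint f (algebraMap F[X] (RatFunc F))

/-- The place of `F(t)` given by the maximal ideal `v` of `F[t]` has degree at most `w`. -/
def DegLE {F : Type} [Field F] (v : HeightOneSpectrum F[X]) (w : ℕ) : Prop :=
  ∃ P ∈ v.asIdeal, P ≠ 0 ∧ P.natDegree ≤ w

/-- Let `K'` be the completion of `F(t)` at a place `v`, `φ` the map from `F[t]` to `K'`, and let `L`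
be a finite extension of `F(t)`. The field `M`, with the embedding `σ` of `L`, is the completion of
`L` at a place above `v`: it is a finite extension of `K'`, generated by the image of `L`. -/
structure IsCompletion {F K' L M : Type} [Field F] [Field K'] [Field L] [Algebra (RatFunc F) L]
    [Field M] [Algebra K' M] (φ : F[X] →+* K') (σ : L →+* M) : Prop where
  finite : FiniteDimensional K' M
  comp : ∀ a : F[X], σ (algebraMap (RatFunc F) L (algebraMap F[X] (RatFunc F) a)) =
    algebraMap K' M (φ a)
  top : Algebra.adjoin K' (Set.range σ) = ⊤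

/-- The hypersurface `f = 0` has points over all the completions of `L` above the completion `K'` of
`F(t)`. -/
def PointsAbove {F K' : Type} [Field F] [Field K'] (φ : F[X] →+* K') {n : ℕ}
    (f : MvPolynomial (Fin (n + 1)) F[X]) (L : Type) [Field L] [Algebra (RatFunc F) L] : Prop :=
  ∀ (M : Type) [Field M] [Algebra K' M] (σ : L →+* M), IsCompletion φ σ →
    HasPoint f ((algebraMap K' M).comp φ)

/-- Above the place of `F(t)` with the completion `K'` there is a place of `L` of relative degree one,
that is, `L` has an embedding over `F(t)` in `K'`. -/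
def DegreeOneAbove {F K' : Type} [Field F] [Field K'] (φ : F[X] →+* K') (L : Type) [Field L]
    [Algebra (RatFunc F) L] : Prop :=
  ∃ σ : L →+* K', ∀ a : F[X],
    σ (algebraMap (RatFunc F) L (algebraMap F[X] (RatFunc F) a)) = φ a

/-- Above every place of `F(t)` of degree at most `w`, and above the place at infinity, there is a
place of `L` of relative degree one. -/
def SplitUpTo (w : ℕ) (F L : Type) [Field F] [Field L] [Algebra (RatFunc F) L] : Prop :=
  (∀ v : HeightOneSpectrum F[X], DegLE v w →
    DegreeOneAbove (algebraMap F[X] (v.adicCompletion (RatFunc F))) L) ∧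
  DegreeOneAbove (toInfty F) L

/-- The hypersurface `f = 0` has points over all the completions of `L` at the places above the
places of `F(t)` of degree at most `w` and above infinity. -/
def SolubleUpTo {F : Type} [Field F] (w : ℕ) {n : ℕ} (f : MvPolynomial (Fin (n + 1)) F[X])
    (L : Type) [Field L] [Algebra (RatFunc F) L] : Prop :=
  (∀ v : HeightOneSpectrum F[X], DegLE v w →
    PointsAbove (algebraMap F[X] (v.adicCompletion (RatFunc F))) f L) ∧
  PointsAbove (toInfty F) f L

lemma point_of_split {F : Type} [Field F] {n : ℕ} {f : MvPolynomial (Fin (n + 1)) F[X]}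
    {K' L : Type} [Field K'] [Field L] [Algebra (RatFunc F) L] {φ : F[X] →+* K'}
    (hD : DegreeOneAbove φ L) (hP : PointsAbove φ f L) :
    ∃ x : Fin (n + 1) → K', x ≠ 0 ∧ MvPolynomial.eval₂ φ x f = 0 := by
  obtain ⟨σ, hσ⟩ := hD
  have h := hP K' σ ⟨inferInstance, fun a => by rw [hσ]; rfl, by
    rw [eq_top_iff]
    intro x _
    exact (Algebra.adjoin K' (Set.range σ)).algebraMap_mem x⟩
  exact h

/-- **The Hasse principle for almost all Fano hypersurfaces over `F(t)`, over all the finite
extensions of `F(t)` with a place of relative degree one above every place of small degree.** For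
every `ε > 0` there is a number `w` such that for all large `A` all the forms `f` of degree `d`,
`2 ≤ d ≤ n`, with coefficients of degree less than `A`, with the exception of a proportion of at most
`ε`, have the following property, for ALL the finite extensions `L` of `F(t)`, of any degree, which
have places of relative degree one above all the places of `F(t)` of degree at most `w` and above
infinity: if `f = 0` has points over the completions of `L` above these places, then it has a point
over `F(t)`. -/
theorem result (F : Type) [Field F] [Finite F] (n d : ℕ) (hn : 3 ≤ n) (hd : 2 ≤ d) (hdn : d ≤ n)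
    (ε : ℝ) (hε : 0 < ε) :
    ∃ w : ℕ, ∀ᶠ A : ℕ in atTop, (1 - ε) * ((Forms F n d A).ncard : ℝ) ≤
      (({f | f ∈ Forms F n d A ∧ ∀ (L : Type) [Field L] [Algebra (RatFunc F) L]
        [FiniteDimensional (RatFunc F) L], SplitUpTo w F L → SolubleUpTo w f L →
        HasRationalPoint f} : Set _).ncard : ℝ) := by
  classical
  obtain ⟨e, rfl⟩ : ∃ e, d = e + 2 := ⟨d - 2, by omega⟩
  obtain ⟨w, N₀, h⟩ := Pool.Agent.Q59.QT.exc_count (F := F) (ι := Fin (n + 1)) e
    (by rw [Fintype.card_fin]; omega) (by rw [Fintype.card_fin]; omega)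
    (ε := min ε 1) (lt_min hε one_pos) (min_le_right _ _)
  refine ⟨w, ?_⟩
  filter_upwards [eventually_ge_atTop (N₀ + 1)] with A hA
  obtain ⟨N, rfl⟩ : ∃ N, A = N + 1 := ⟨A - 1, by omega⟩
  have h1 := h N (by omega)
  set Fo := Pool.Agent.Y716.FF.forms F (Fin (n + 1)) (e + 2) (N + 1) with hFo
  have hall : (Forms F n (e + 2) (N + 1)) = (Fo : Set (MvPolynomial (Fin (n + 1)) F[X])) := by
    ext f
    rw [Finset.mem_coe, hFo, Pool.Agent.Y716.FF.mem_forms]
    rfl
  have hfin : (Forms F n (e + 2) (N + 1)).Finite := by
    rw [hall]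
    exact Finset.finite_toSet _
  set G : Set (MvPolynomial (Fin (n + 1)) F[X]) := {f | f ∈ Forms F n (e + 2) (N + 1) ∧
    ∀ (L : Type) [Field L] [Algebra (RatFunc F) L] [FiniteDimensional (RatFunc F) L],
      SplitUpTo w F L → SolubleUpTo w f L → HasRationalPoint f} with hG
  have hsub : Forms F n (e + 2) (N + 1) ⊆ ((Fo.filter (fun f =>
      Pool.Agent.Q59.QT.LocAt w N f ∧ ¬ Pool.Agent.Y716.FF.Sol f) : Finset _) : Set _) ∪ G := by
    intro f hf
    by_cases hs : Pool.Agent.Y716.FF.Sol f
    · right
      exact ⟨hf, fun L _ _ _ _ _ => (Pool.Agent.Y716.FF.solK_iff hf).mpr hs⟩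
    by_cases hl : Pool.Agent.Q59.QT.LocAt w N f
    · left
      rw [Finset.mem_coe, Finset.mem_filter]
      exact ⟨by rw [← Finset.mem_coe, ← hall]; exact hf, hl, hs⟩
    · right
      refine ⟨hf, fun L _ _ _ hL1 hL2 => absurd ?_ hl⟩
      constructor
      · intro P hP E
        have hP' := Pool.Agent.Y716.FF.mem_primesLE.mp hP
        have hne : Ideal.span {P} ≠ (⊥ : Ideal F[X]) := by
          rw [Ne, Ideal.span_singleton_eq_bot]; exact hP'.2.2.ne_zero
        have hpr : (Ideal.span {P} : Ideal F[X]).IsPrime :=
          (Ideal.span_singleton_prime hP'.2.2.ne_zero).mpr hP'.2.2.prime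
        let v : HeightOneSpectrum F[X] := ⟨Ideal.span {P}, hpr, hne⟩
        have hv : DegLE v w := ⟨P, Ideal.mem_span_singleton_self P, hP'.2.2.ne_zero, hP'.1⟩
        exact Pool.Agent.Y241.exists_approx_of_adic f hf.1 v P rfl
          (point_of_split (hL1.1 v hv) (hL2.1 v hv)) E
      · intro E
        exact Pool.Agent.Y241.exists_approx_of_laurent f hf.1 N
          (fun m => Pool.Agent.Y716.FF.natDegree_le_of_degree_lt (hf.2 m))
          (point_of_split hL1.2 hL2.2) E
  have hGfin : G.Finite := hfin.subset fun f hf => hf.1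
  have h2 : ((Forms F n (e + 2) (N + 1)).ncard : ℝ) ≤ ((Fo.filter (fun f =>
      Pool.Agent.Q59.QT.LocAt w N f ∧ ¬ Pool.Agent.Y716.FF.Sol f)).card : ℝ) + (G.ncard : ℝ) := by
    have h3 := (Set.ncard_le_ncard hsub ((Finset.finite_toSet _).union hGfin)).trans
      (Set.ncard_union_le _ _)
    rw [Set.ncard_coe_finset] at h3
    exact_mod_cast h3
  have h4 : ((Forms F n (e + 2) (N + 1)).ncard : ℝ) = (Fo.card : ℝ) := by
    rw [hall, Set.ncard_coe_finset]
  have h5 : min ε 1 * (Fo.card : ℝ) ≤ ε * (Fo.card : ℝ) :=
    mul_le_mul_of_nonneg_right (min_le_left _ _) (Nat.cast_nonneg _)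
  rw [h4] at h2 ⊢
  linarith

end Pool.Agent.Results.MP_d4938b_nt.FanoOverSplitExtensions
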