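import Pool.Agent.Q319.FF.Main2
import Pool.Agent.Results.MP_d4938b_nt.RandomFanoFunctionField

/-!
# Weak approximation by points of nearly minimal height for random Fano hypersurfaces over `F_q(t)`

Let `F` be a finite field, `n ≥ 3` and `2 ≤ d ≤ n`. The forms `f` of degree `d` in `n + 1` variables with coefficients in
`F[t]` of degree less than `A` define Fano hypersurfaces over the global field `F(t)` (cubic surfaces included). For
almost all of those which have points over all completions of `F(t)` ALL adelic points can be approximated by rational
points: for every family of points, one over each completion, there is a rational point which is near it at infinity and at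
all places of degree at most `m`, to precision `m`; and this rational point has nearly the least possible height: it is
given by polynomials of degree at most `A / (n + 1 - d) + C`, while no rational point of the hypersurface is given by
polynomials of degree less than `A / (n + 1 - d) - C`. Here `C` depends only on `F`, `n`, `d`, `m` and on the proportion of
the exceptions.

From Mathlib: `HeightOneSpectrum F[X]`: the maximal ideals of `F[X]`, `v.adicCompletion (RatFunc F)`: the completion of
`F(t)` at `v`, `Valued.v`: its valuation with values in `ℤᵐ⁰`, `WithZero.exp (-m)`: the value of the `m`-th power of a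
uniformizer; `LaurentSeries F`. `Forms`, `HasLocalZeros` and `toInfty` (the embedding in the completion at infinity) are
defined in the starting file `RandomFanoFunctionField`.
-/

set_option autoImplicit false

namespace Pool.Agent.Results.MP_d4938b_nt.MinimalHeight

open Polynomial IsDedekindDomain Pool.Agent.Results.MP_d4938b_nt.RandomFanoFunctionField

/-- The point with the polynomial coordinates `x` is near the point `z` over the completion at `v`: some multiple of the
vector `x` differs from `z` in each coordinate by at most `q_v ^ (-m)` times the absolute value of a coordinate of `z`. -/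
def NearAt {F : Type*} [Field F] {n : ℕ} (v : HeightOneSpectrum F[X]) (m : ℕ)
    (z : Fin (n + 1) → v.adicCompletion (RatFunc F)) (x : Fin (n + 1) → F[X]) : Prop :=
  ∃ (c : v.adicCompletion (RatFunc F)) (r : Fin (n + 1)), c ≠ 0 ∧ ∀ i,
    Valued.v (z i - c * algebraMap F[X] (v.adicCompletion (RatFunc F)) (x i)) ≤
      WithZero.exp (-(m : ℤ)) * Valued.v (z r)

/-- The same for the completion `F((u))` at infinity, `u = 1 / t`: in each coordinate some multiple of the vector `x` differs
from `z` by an element of `u ^ m z_r F[[u]]`. -/
def NearInfty {F : Type*} [Field F] {n : ℕ} (m : ℕ) (z : Fin (n + 1) → LaurentSeries F)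
    (x : Fin (n + 1) → F[X]) : Prop :=
  ∃ (c : LaurentSeries F) (r : Fin (n + 1)), c ≠ 0 ∧ ∀ i, ∃ s : PowerSeries F,
    z i - c * toInfty F (x i) = HahnSeries.ofPowerSeries ℤ F (PowerSeries.X ^ m * s) * z r

/-- Weak approximation to precision `m` by points of degree at most `B` for the hypersurface `f = 0`: for every family of
points, one over each completion of `F(t)`, there is a rational point, given by polynomials `x i` of degree at most `B`, not
all of them `0`, which is near it, to precision `m`, at infinity and at all places whose degree is at most `m`. -/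
def Approximable {F : Type*} [Field F] {n : ℕ} (B m : ℕ) (f : MvPolynomial (Fin (n + 1)) F[X]) : Prop :=
  ∀ (z : ∀ v : HeightOneSpectrum F[X], Fin (n + 1) → v.adicCompletion (RatFunc F))
    (w : Fin (n + 1) → LaurentSeries F),
    (∀ v, z v ≠ 0 ∧ MvPolynomial.aeval (z v) f = 0) → (w ≠ 0 ∧ MvPolynomial.eval₂ (toInfty F) w f = 0) →
    ∃ x : Fin (n + 1) → F[X], x ≠ 0 ∧ (∀ i, (x i).natDegree ≤ B) ∧ MvPolynomial.eval x f = 0 ∧
      (∀ (v : HeightOneSpectrum F[X]) (P : F[X]), v.asIdeal = Ideal.span {P} → P.natDegree ≤ m →
        NearAt v m (z v) x) ∧ NearInfty m w x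

/-- Every rational point of the hypersurface `f = 0`, given by polynomials `x i` which are not all `0`, has a coordinate `x i`
of degree at least `B`. -/
def NoPointsBelow {F : Type*} [Field F] {n : ℕ} (B : ℕ) (f : MvPolynomial (Fin (n + 1)) F[X]) : Prop :=
  ∀ x : Fin (n + 1) → F[X], x ≠ 0 → MvPolynomial.eval x f = 0 → ∃ i, B ≤ (x i).natDegree

/-- For every finite field `F`, all `n ≥ 3` and `2 ≤ d ≤ n`, every `m` and every `ε > 0` there is a constant `C` such that for
all large `A`, among the forms of degree `d` in `n + 1` variables over `F[t]` with coefficients of degree less than `A` which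
have nontrivial zeros over all completions of `F(t)`, at least the proportion `1 - ε` satisfies weak approximation to
precision `m` by points of degree at most `⌊A / (n + 1 - d)⌋ + C`, and has no rational point of degree less than
`⌊A / (n + 1 - d)⌋ - C`. -/
theorem result (F : Type*) [Field F] [Finite F] (n d : ℕ) (hn : 3 ≤ n) (hd : 2 ≤ d) (hdn : d ≤ n) (m : ℕ)
    (ε : ℝ) (hε : 0 < ε) : ∃ C A₀ : ℕ, ∀ A : ℕ, A₀ ≤ A →
      (1 - ε) * (({f ∈ Forms F n d A | HasLocalZeros f} : Set _).ncard : ℝ) ≤
      (({f ∈ Forms F n d A | HasLocalZeros f ∧ Approximable (A / (n + 1 - d) + C) m f ∧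
        NoPointsBelow (A / (n + 1 - d) - C) f} : Set _).ncard : ℝ) := by
  obtain ⟨e, rfl⟩ : ∃ e, d = e + 2 := ⟨d - 2, by omega⟩
  have h := Pool.Agent.Q319.FF.sharp_main (F := F) (ι := Fin (n + 1)) e
    (by rw [Fintype.card_fin]; omega) (by rw [Fintype.card_fin]; omega) m hε
  rw [Fintype.card_fin] at h
  exact h

end Pool.Agent.Results.MP_d4938b_nt.MinimalHeight
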